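import Mathlib

/-!
# At least half of the pairs in a square are coprime
-/

namespace Pool.Agent.R800.GL

open Finset

lemma odd_sum (j : ℕ) : ∑ i ∈ Finset.Icc 1 j, (1 : ℝ) / ((2 * i + 1 : ℕ) : ℝ) ^ 2 ≤
    1 / 4 - 1 / (4 * (j + 1)) := by
  induction j with
  | zero => simp
  | succ j ih =>
    rw [Finset.sum_Icc_succ_top (by omega)]
    have h1 : (1 : ℝ) / ((2 * (j + 1) + 1 : ℕ) : ℝ) ^ 2 ≤
        1 / (4 * (j + 1)) - 1 / (4 * ((j + 1 : ℕ) + 1)) := by
      have hj : (0 : ℝ) ≤ j := Nat.cast_nonneg j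
      push_cast
      rw [div_sub_div _ _ (by positivity) (by positivity), div_le_div_iff₀ (by positivity)
        (by positivity)]
      nlinarith
    linarith

lemma card_mult (H d : ℕ) : ((Finset.Icc 1 H ×ˢ Finset.Icc 1 H).filter
    (fun z => d ∣ z.1 ∧ d ∣ z.2)).card = (H / d) * (H / d) := by
  have h1 : (Finset.Icc 1 H ×ˢ Finset.Icc 1 H).filter (fun z => d ∣ z.1 ∧ d ∣ z.2) =
      ((Finset.Icc 1 H).filter (fun z => d ∣ z)) ×ˢ ((Finset.Icc 1 H).filter (fun z => d ∣ z)) := by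
    ext z
    simp only [Finset.mem_filter, Finset.mem_product]
    tauto
  have h2 : (Finset.Icc 1 H).filter (fun z => d ∣ z) = (Finset.Ioc 0 H).filter (fun z => d ∣ z) := by
    congr 1
  rw [h1, Finset.card_product, h2, Nat.Ioc_filter_dvd_card_eq_div]

/-- at least half of the pairs in `[1, H]²` are coprime -/
theorem coprime_count (H : ℕ) : H ^ 2 ≤ 2 * ((Finset.Icc 1 H ×ˢ Finset.Icc 1 H).filter
    (fun z => Nat.Coprime z.1 z.2)).card := by
  classical
  set Q := Finset.Icc 1 H ×ˢ Finset.Icc 1 H with hQ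
  set M : ℕ → Finset (ℕ × ℕ) := fun d => Q.filter (fun z => d ∣ z.1 ∧ d ∣ z.2) with hM
  have hsub : Q.filter (fun z => ¬ Nat.Coprime z.1 z.2) ⊆
      M 2 ∪ (Finset.Icc 1 H).biUnion (fun i => M (2 * i + 1)) := by
    intro z hz
    rw [Finset.mem_filter] at hz
    obtain ⟨hz, hc⟩ := hz
    obtain ⟨d, hd, h1, h2⟩ := Nat.Prime.not_coprime_iff_dvd.mp hc
    have hz1 : 1 ≤ z.1 ∧ z.1 ≤ H := by
      rw [hQ, Finset.mem_product, Finset.mem_Icc] at hz
      exact hz.1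
    rw [Finset.mem_union]
    rcases hd.eq_two_or_odd' with rfl | hodd
    · left
      rw [hM, Finset.mem_filter]
      exact ⟨hz, h1, h2⟩
    · right
      obtain ⟨i, hi⟩ := hodd
      rw [Finset.mem_biUnion]
      refine ⟨i, ?_, ?_⟩
      · have := hd.two_le
        have h3 := Nat.le_of_dvd (by omega) h1
        rw [Finset.mem_Icc]
        omega
      · rw [hM, Finset.mem_filter, ← hi]
        exact ⟨hz, h1, h2⟩
  have hMc : ∀ d, 1 ≤ d → ((M d).card : ℝ) ≤ (H : ℝ) ^ 2 * (1 / (d : ℝ) ^ 2) := by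
    intro d hd
    rw [hM]
    simp only
    rw [hQ, card_mult]
    have h1 : ((H / d : ℕ) : ℝ) ≤ H / d := Nat.cast_div_le
    have h2 : (0 : ℝ) ≤ ((H / d : ℕ) : ℝ) := Nat.cast_nonneg _
    push_cast
    calc ((H / d : ℕ) : ℝ) * ((H / d : ℕ) : ℝ) ≤ (H / d) * (H / d) :=
          mul_le_mul h1 h1 h2 (by positivity)
      _ = _ := by ring
  have h1 : ((Q.filter (fun z => ¬ Nat.Coprime z.1 z.2)).card : ℝ) ≤ (H : ℝ) ^ 2 / 2 := by
    have h2 : ((Q.filter (fun z => ¬ Nat.Coprime z.1 z.2)).card : ℝ) ≤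
        (M 2).card + ∑ i ∈ Finset.Icc 1 H, ((M (2 * i + 1)).card : ℝ) := by
      have h3 := (Finset.card_le_card hsub).trans ((Finset.card_union_le _ _).trans
        (Nat.add_le_add_left Finset.card_biUnion_le _))
      exact_mod_cast h3
    have h3 : ∑ i ∈ Finset.Icc 1 H, ((M (2 * i + 1)).card : ℝ) ≤
        (H : ℝ) ^ 2 * ∑ i ∈ Finset.Icc 1 H, (1 : ℝ) / ((2 * i + 1 : ℕ) : ℝ) ^ 2 := by
      rw [Finset.mul_sum]
      exact Finset.sum_le_sum (fun i _ => hMc _ (by omega))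
    have h4 := hMc 2 (by omega)
    have h5 := odd_sum H
    have h6 : (0 : ℝ) ≤ 1 / (4 * ((H : ℝ) + 1)) := by positivity
    have h7 : (H : ℝ) ^ 2 * ∑ i ∈ Finset.Icc 1 H, (1 : ℝ) / ((2 * i + 1 : ℕ) : ℝ) ^ 2 ≤
        (H : ℝ) ^ 2 * (1 / 4) := mul_le_mul_of_nonneg_left (by linarith) (by positivity)
    push_cast at h4
    linarith
  have h2 := Finset.card_filter_add_card_filter_not (s := Q) (fun z => Nat.Coprime z.1 z.2)
  have h3 : Q.card = H ^ 2 := by
    rw [hQ, Finset.card_product, Nat.card_Icc]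
    simp only [Nat.add_sub_cancel]
    ring
  have h4 : (H : ℝ) ^ 2 ≤ 2 * ((Q.filter (fun z => Nat.Coprime z.1 z.2)).card : ℝ) := by
    have h5 : ((Q.filter (fun z => Nat.Coprime z.1 z.2)).card : ℝ) +
        ((Q.filter (fun z => ¬ Nat.Coprime z.1 z.2)).card : ℝ) = (H : ℝ) ^ 2 := by
      rw [h3] at h2
      exact_mod_cast h2
    linarith
  exact_mod_cast h4

end Pool.Agent.R800.GL
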