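import Pool.Agent.R800.GL.Thr

/-!
# Counting the vertices of a level by the distinct abscissae of short pairs
-/

namespace Pool.Agent.R800.GL

open KLev.Levels Pool.Agent.Y375.FD Finset

/-- vertices whose two lines are far apart in the first index -/
lemma long_card {Γ : Finset (ℝ × ℝ)} {k A ℓ : ℕ} {c₁ c₂ : ℝ} (hc : c₁ ≠ 0 ∨ c₂ ≠ 0)
    (I : ℝ × ℝ → ℕ) (g : ℕ → ℝ) (hg : StrictMono g ∨ StrictAnti g)
    (hI : ∀ l ∈ Γ, I l < A ∧ c₁ * l.1 + c₂ * l.2 = g (I l))
    (W : Finset (ℝ × ℝ)) (L M : ℝ × ℝ → ℝ × ℝ) (hW : ∀ p ∈ W, V Γ k p (L p) (M p))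
    (hℓ : ∀ p ∈ W, ℓ < I (M p) - I (L p) ∨ ℓ < I (L p) - I (M p)) :
    W.card * (ℓ + 1) ≤ A * (2 * mm Γ k) := by
  classical
  set τ : ℕ → ℝ := fun t => (g t + g (t + 1)) / 2 with hτ
  have hne : ∀ t, ∀ j ∈ Γ, c₁ * j.1 + c₂ * j.2 ≠ τ t := by
    intro t j hj h
    rw [(hI j hj).2] at h
    rcases hg with hg | hg
    · have h1 : g t < g (t + 1) := hg (Nat.lt_succ_self t)
      rcases Nat.lt_or_ge t (I j) with h2 | h2
      · have : g (t + 1) ≤ g (I j) := hg.monotone h2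
        simp only [hτ] at h
        linarith
      · have : g (I j) ≤ g t := hg.monotone h2
        simp only [hτ] at h
        linarith
    · have h1 : g (t + 1) < g t := hg (Nat.lt_succ_self t)
      rcases Nat.lt_or_ge t (I j) with h2 | h2
      · have : g (I j) ≤ g (t + 1) := hg.antitone h2
        simp only [hτ] at h
        linarith
      · have : g t ≤ g (I j) := hg.antitone h2
        simp only [hτ] at h
        linarith
  -- separation
  have hsep : ∀ a b t : ℕ, a ≤ t → t < b →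
      (g a < τ t ∧ τ t < g b) ∨ (g b < τ t ∧ τ t < g a) := by
    intro a b t h1 h2
    rcases hg with hg | hg
    · left
      have h3 : g a ≤ g t := hg.monotone h1
      have h4 : g (t + 1) ≤ g b := hg.monotone h2
      have h5 : g t < g (t + 1) := hg (Nat.lt_succ_self t)
      simp only [hτ]
      constructor <;> linarith
    · right
      have h3 : g t ≤ g a := hg.antitone h1
      have h4 : g b ≤ g (t + 1) := hg.antitone h2
      have h5 : g (t + 1) < g t := hg (Nat.lt_succ_self t)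
      simp only [hτ]
      constructor <;> linarith
  have key := Finset.card_mul_le_card_mul (s := W) (t := Finset.range A)
    (fun p t => p ∈ HT Γ k (fun l => c₁ * l.1 + c₂ * l.2) (τ t)) (m := ℓ + 1)
    (n := 2 * mm Γ k) ?_ ?_
  · rw [Finset.card_range] at key
    exact key
  · intro p hp
    have hV := hW p hp
    have hL := hI _ hV.1
    have hM := hI _ hV.2.1
    rcases hℓ p hp with h | h
    · have hsub : Finset.Ico (I (L p)) (I (M p)) ⊆ (Finset.range A).bipartiteAbove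
          (fun p t => p ∈ HT Γ k (fun l => c₁ * l.1 + c₂ * l.2) (τ t)) p := by
        intro t ht
        rw [Finset.mem_Ico] at ht
        rw [Finset.mem_bipartiteAbove, Finset.mem_range]
        refine ⟨by omega, L p, M p, hV, ?_⟩
        show (c₁ * (M p).1 + c₂ * (M p).2 < τ t ∧ τ t < c₁ * (L p).1 + c₂ * (L p).2) ∨
          (c₁ * (L p).1 + c₂ * (L p).2 < τ t ∧ τ t < c₁ * (M p).1 + c₂ * (M p).2)
        rw [hL.2, hM.2]
        exact (hsep _ _ t ht.1 ht.2).symm
      have := Finset.card_le_card hsub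
      rw [Nat.card_Ico] at this
      omega
    · have hsub : Finset.Ico (I (M p)) (I (L p)) ⊆ (Finset.range A).bipartiteAbove
          (fun p t => p ∈ HT Γ k (fun l => c₁ * l.1 + c₂ * l.2) (τ t)) p := by
        intro t ht
        rw [Finset.mem_Ico] at ht
        rw [Finset.mem_bipartiteAbove, Finset.mem_range]
        refine ⟨by omega, L p, M p, hV, ?_⟩
        show (c₁ * (M p).1 + c₂ * (M p).2 < τ t ∧ τ t < c₁ * (L p).1 + c₂ * (L p).2) ∨
          (c₁ * (L p).1 + c₂ * (L p).2 < τ t ∧ τ t < c₁ * (M p).1 + c₂ * (M p).2)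
        rw [hL.2, hM.2]
        exact hsep _ _ t ht.1 ht.2
      have := Finset.card_le_card hsub
      rw [Nat.card_Ico] at this
      omega
  · intro t _
    have h1 := fun_card (k := k) hc (hne t)
    have hsub : ((W.bipartiteBelow
        (fun p t => p ∈ HT Γ k (fun l => c₁ * l.1 + c₂ * l.2) (τ t)) t : Finset (ℝ × ℝ)) :
        Set (ℝ × ℝ)) ⊆ HT Γ k (fun l => c₁ * l.1 + c₂ * l.2) (τ t) := by
      intro p hp
      rw [Finset.mem_coe, Finset.mem_bipartiteBelow] at hp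
      exact hp.2
    have h2 := Set.ncard_le_ncard hsub h1.1
    rw [Set.ncard_coe_finset] at h2
    exact h2.trans h1.2

/-- the abscissa at which two lines cross -/
noncomputable def cross (l m : ℝ × ℝ) : ℝ := (m.2 - l.2) / (l.1 - m.1)

/-- the main count -/
theorem core {Γ : Finset (ℝ × ℝ)} (k A B C : ℕ) (hA : 1 ≤ A) (hB : 1 ≤ B) (hC : 1 ≤ C)
    {c₁ c₂ d₁ d₂ : ℝ} (hc : c₁ ≠ 0 ∨ c₂ ≠ 0) (hd : d₁ ≠ 0 ∨ d₂ ≠ 0)
    (I J : ℝ × ℝ → ℕ) (g h : ℕ → ℝ) (hg : StrictMono g ∨ StrictAnti g)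
    (hh : StrictMono h ∨ StrictAnti h)
    (hI : ∀ l ∈ Γ, I l < A ∧ c₁ * l.1 + c₂ * l.2 = g (I l))
    (hJ : ∀ l ∈ Γ, J l < B ∧ d₁ * l.1 + d₂ * l.2 = h (J l))
    (hX : ∀ a b : ℕ, ∃ X : Finset ℝ, X.card ≤ 2 * C * a * b + 2 ∧
      ∀ l ∈ Γ, ∀ m ∈ Γ, l.1 ≠ m.1 → I l - I m ≤ a → I m - I l ≤ a → J l - J m ≤ b →
        J m - J l ≤ b → cross l m ∈ X) :
    (complexity Γ k : ℝ) ≤ 8 * ((C : ℝ) * A * B * (mm Γ k : ℝ) ^ 2) ^ ((1 : ℝ) / 3) := by
  classical
  set S : ℝ := (C : ℝ) * A * B * (mm Γ k : ℝ) ^ 2 with hS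
  have hmm : 1 ≤ mm Γ k := by unfold mm; omega
  have hAr : (1 : ℝ) ≤ A := by exact_mod_cast hA
  have hBr : (1 : ℝ) ≤ B := by exact_mod_cast hB
  have hCr : (1 : ℝ) ≤ C := by exact_mod_cast hC
  have hmr : (1 : ℝ) ≤ mm Γ k := by exact_mod_cast hmm
  have hS1 : 1 ≤ S := by
    have h1 : (1 : ℝ) ≤ (C : ℝ) * A := by nlinarith
    have h2 : (1 : ℝ) ≤ (C : ℝ) * A * B := by nlinarith
    have h3 : (1 : ℝ) ≤ (mm Γ k : ℝ) ^ 2 := by nlinarith
    nlinarith
  set R : ℝ := S ^ ((1 : ℝ) / 3) with hR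
  have hR1 : 1 ≤ R := Real.one_le_rpow hS1 (by norm_num)
  have hR3 : R ^ 3 = S := by
    rw [hR, ← Real.rpow_natCast, ← Real.rpow_mul (by linarith)]
    norm_num
  have hR0 : 0 < R := by linarith
  -- the vertices and their lines
  have hfin : {p | IsVertex Γ k p}.Finite := vertices_finite Γ k
  set W : Finset (ℝ × ℝ) := hfin.toFinset with hWdef
  have hWv : ∀ p ∈ W, ∃ l m, V Γ k p l m := by
    intro p hp
    rw [hWdef, Set.Finite.mem_toFinset] at hp
    exact V_of_isVertex hp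
  choose! L M hLM using hWv
  have hcard : complexity Γ k = W.card := by
    unfold complexity
    rw [Set.ncard_eq_toFinset_card _ hfin]
  set t : ℝ := (mm Γ k : ℝ) / R with ht
  have ht0 : 0 < t := by positivity
  set a : ℕ := ⌊(A : ℝ) * t⌋₊ with ha
  set b : ℕ := ⌊(B : ℝ) * t⌋₊ with hb
  have ha1 : (a : ℝ) ≤ A * t := Nat.floor_le (by positivity)
  have hb1 : (b : ℝ) ≤ B * t := Nat.floor_le (by positivity)
  have ha2 : (A : ℝ) * t < a + 1 := Nat.lt_floor_add_one _
  have hb2 : (B : ℝ) * t < b + 1 := Nat.lt_floor_add_one _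
  set W1 : Finset (ℝ × ℝ) := W.filter
    (fun p => a < I (M p) - I (L p) ∨ a < I (L p) - I (M p)) with hW1
  set W2 : Finset (ℝ × ℝ) := W.filter
    (fun p => b < J (M p) - J (L p) ∨ b < J (L p) - J (M p)) with hW2
  set W0 : Finset (ℝ × ℝ) := W.filter
    (fun p => I (L p) - I (M p) ≤ a ∧ I (M p) - I (L p) ≤ a ∧ J (L p) - J (M p) ≤ b ∧
      J (M p) - J (L p) ≤ b) with hW0
  have hsub : W ⊆ W0 ∪ (W1 ∪ W2) := by
    intro p hp
    rw [Finset.mem_union, Finset.mem_union, hW0, hW1, hW2, Finset.mem_filter, Finset.mem_filter,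
      Finset.mem_filter]
    by_cases h1 : a < I (M p) - I (L p) ∨ a < I (L p) - I (M p)
    · exact Or.inr (Or.inl ⟨hp, h1⟩)
    by_cases h2 : b < J (M p) - J (L p) ∨ b < J (L p) - J (M p)
    · exact Or.inr (Or.inr ⟨hp, h2⟩)
    left
    refine ⟨hp, ?_, ?_, ?_, ?_⟩ <;> omega
  have hcs : W.card ≤ W0.card + (W1.card + W2.card) :=
    (Finset.card_le_card hsub).trans ((Finset.card_union_le _ _).trans
      (Nat.add_le_add_left (Finset.card_union_le _ _) _))
  -- long vertices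
  have h1 : W1.card * (a + 1) ≤ A * (2 * mm Γ k) := by
    refine long_card hc I g hg hI W1 L M ?_ ?_
    · intro p hp
      exact hLM p (Finset.mem_filter.mp hp).1
    · intro p hp
      exact (Finset.mem_filter.mp hp).2
  have h2 : W2.card * (b + 1) ≤ B * (2 * mm Γ k) := by
    refine long_card hd J h hh hJ W2 L M ?_ ?_
    · intro p hp
      exact hLM p (Finset.mem_filter.mp hp).1
    · intro p hp
      exact (Finset.mem_filter.mp hp).2
  -- short vertices
  have h0 : W0.card ≤ 2 * C * a * b + 2 := by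
    obtain ⟨X, hX1, hX2⟩ := hX a b
    refine le_trans ?_ hX1
    apply Finset.card_le_card_of_injOn (fun p => p.1)
    · intro p hp
      have hp' := (Finset.mem_filter.mp hp)
      have hV := hLM p hp'.1
      have hs := slope_ne hV.2.2.1 hV.2.2.2.1 hV.2.2.2.2.1
      have hx : cross (L p) (M p) = p.1 := by
        unfold cross
        rw [div_eq_iff (sub_ne_zero.mpr hs)]
        have e1 := hV.2.2.2.1
        have e2 := hV.2.2.2.2.1
        unfold height at e1 e2
        linarith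
      show p.1 ∈ X
      rw [← hx]
      exact hX2 _ hV.1 _ hV.2.1 hs hp'.2.1 hp'.2.2.1 hp'.2.2.2.1 hp'.2.2.2.2
    · intro p hp q hq hpq
      exact V_inj (hLM p (Finset.mem_filter.mp hp).1) (hLM q (Finset.mem_filter.mp hq).1) hpq
  -- the real estimates
  have hlong : ∀ (w N e : ℕ), w * (e + 1) ≤ N * (2 * mm Γ k) → (1 : ℝ) ≤ N →
      (N : ℝ) * t < e + 1 → (w : ℝ) ≤ 2 * R := by
    intro w N e hw hN he
    have hw' : (w : ℝ) * (e + 1) ≤ N * (2 * mm Γ k) := by exact_mod_cast hw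
    have h3 : (w : ℝ) * (N * t) ≤ N * (2 * mm Γ k) :=
      le_trans (mul_le_mul_of_nonneg_left he.le (Nat.cast_nonneg w)) hw'
    have h4 : (w : ℝ) * t ≤ 2 * mm Γ k := by
      have h5 : (N : ℝ) * ((w : ℝ) * t) ≤ N * (2 * mm Γ k) := by linarith [h3]
      exact le_of_mul_le_mul_left h5 (by linarith)
    rw [ht] at h4
    have h6 : (w : ℝ) * ((mm Γ k : ℝ) / R) * R = w * mm Γ k := by field_simp
    have h7 : (w : ℝ) * mm Γ k ≤ 2 * mm Γ k * R := by
      rw [← h6]
      exact mul_le_mul_of_nonneg_right h4 hR0.le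
    have h8 : (mm Γ k : ℝ) * w ≤ mm Γ k * (2 * R) := by linarith
    exact le_of_mul_le_mul_left h8 (by linarith)
  have e1 := hlong _ _ _ h1 hAr ha2
  have e2 := hlong _ _ _ h2 hBr hb2
  have e0 : (W0.card : ℝ) ≤ 2 * R + 2 := by
    have h3 : (W0.card : ℝ) ≤ 2 * C * a * b + 2 := by exact_mod_cast h0
    have h4 : (a : ℝ) * b ≤ (A * t) * (B * t) :=
      mul_le_mul ha1 hb1 (Nat.cast_nonneg b) (by positivity)
    have h5 : (C : ℝ) * ((A * t) * (B * t)) = R := by
      have h6 : (C : ℝ) * ((A * t) * (B * t)) = S / R ^ 2 := by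
        rw [ht, hS]
        field_simp
      rw [h6, ← hR3]
      field_simp
    have h7 : (C : ℝ) * ((a : ℝ) * b) ≤ R := by
      rw [← h5]
      exact mul_le_mul_of_nonneg_left h4 (by linarith)
    nlinarith
  have e3 : (W.card : ℝ) ≤ W0.card + (W1.card + W2.card) := by exact_mod_cast hcs
  rw [hcard]
  linarith

end Pool.Agent.R800.GL
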