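import Pool.Agent.R800.GL.Grid
import Pool.Agent.R800.GL.Cop

/-!
# The middle levels of the arrangement of all lines with slopes and intercepts in `{0, …, N - 1}`
-/

namespace Pool.Agent.R800.GL

open KLev.Levels Pool.Agent.Y375.FD Finset Filter Topology

lemma ev_left (Γ : Finset (ℝ × ℝ)) {p l : ℝ × ℝ} (hlp : height l p.1 = p.2) :
    ∀ᶠ x in 𝓝[<] p.1, ∀ j ∈ Γ, j ≠ l → (height j x < height l x ↔
      (height j p.1 < p.2 ∨ (height j p.1 = p.2 ∧ l.1 < j.1))) := by
  rw [Filter.eventually_all_finset]
  intro j hjΓ
  by_cases hjl : j = l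
  · exact Filter.Eventually.of_forall (fun _ h => absurd hjl h)
  rcases lt_trichotomy (height j p.1) p.2 with h2 | h2 | h2
  · have h3 : height j p.1 < height l p.1 := by rw [hlp]; exact h2
    have h4 : ∀ᶠ x in 𝓝[<] p.1, height j x < height l x :=
      ((height_cont j).continuousAt.eventually_lt (height_cont l).continuousAt h3).filter_mono
        nhdsWithin_le_nhds
    filter_upwards [h4] with x hx _
    exact ⟨fun _ => Or.inl h2, fun _ => hx⟩
  · have hs : j.1 ≠ l.1 := slope_ne hjl h2 hlp
    filter_upwards [self_mem_nhdsWithin] with x hx _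
    have hx' : x < p.1 := hx
    have e : height j x - height l x = (j.1 - l.1) * (x - p.1) := by
      unfold height at h2 hlp ⊢
      linear_combination h2 - hlp
    rcases lt_or_gt_of_ne hs with h5 | h5
    · have h6 : 0 < (j.1 - l.1) * (x - p.1) :=
        mul_pos_of_neg_of_neg (by linarith) (by linarith)
      refine ⟨fun h7 => by linarith, ?_⟩
      rintro (h7 | ⟨-, h7⟩)
      · exact absurd h2 h7.ne
      · linarith
    · have h6 : (j.1 - l.1) * (x - p.1) < 0 :=
        mul_neg_of_pos_of_neg (by linarith) (by linarith)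
      exact ⟨fun _ => Or.inr ⟨h2, h5⟩, fun _ => by linarith⟩
  · have h3 : height l p.1 < height j p.1 := by rw [hlp]; exact h2
    have h4 : ∀ᶠ x in 𝓝[<] p.1, height l x < height j x :=
      ((height_cont l).continuousAt.eventually_lt (height_cont j).continuousAt h3).filter_mono
        nhdsWithin_le_nhds
    filter_upwards [h4] with x hx _
    refine ⟨fun h5 => absurd h5 (not_lt.mpr hx.le), ?_⟩
    rintro (h5 | ⟨h5, -⟩)
    · exact absurd h5 (not_lt.mpr h2.le)
    · exact absurd h5 h2.ne'

lemma ev_right (Γ : Finset (ℝ × ℝ)) {p l : ℝ × ℝ} (hlp : height l p.1 = p.2) :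
    ∀ᶠ x in 𝓝[>] p.1, ∀ j ∈ Γ, j ≠ l → (height j x < height l x ↔
      (height j p.1 < p.2 ∨ (height j p.1 = p.2 ∧ j.1 < l.1))) := by
  rw [Filter.eventually_all_finset]
  intro j hjΓ
  by_cases hjl : j = l
  · exact Filter.Eventually.of_forall (fun _ h => absurd hjl h)
  rcases lt_trichotomy (height j p.1) p.2 with h2 | h2 | h2
  · have h3 : height j p.1 < height l p.1 := by rw [hlp]; exact h2
    have h4 : ∀ᶠ x in 𝓝[>] p.1, height j x < height l x :=
      ((height_cont j).continuousAt.eventually_lt (height_cont l).continuousAt h3).filter_mono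
        nhdsWithin_le_nhds
    filter_upwards [h4] with x hx _
    exact ⟨fun _ => Or.inl h2, fun _ => hx⟩
  · have hs : j.1 ≠ l.1 := slope_ne hjl h2 hlp
    filter_upwards [self_mem_nhdsWithin] with x hx _
    have hx' : p.1 < x := hx
    have e : height j x - height l x = (j.1 - l.1) * (x - p.1) := by
      unfold height at h2 hlp ⊢
      linear_combination h2 - hlp
    rcases lt_or_gt_of_ne hs with h5 | h5
    · have h6 : (j.1 - l.1) * (x - p.1) < 0 :=
        mul_neg_of_neg_of_pos (by linarith) (by linarith)
      exact ⟨fun _ => Or.inr ⟨h2, h5⟩, fun _ => by linarith⟩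
    · have h6 : 0 < (j.1 - l.1) * (x - p.1) :=
        mul_pos (by linarith) (by linarith)
      refine ⟨fun h7 => by linarith, ?_⟩
      rintro (h7 | ⟨-, h7⟩)
      · exact absurd h2 h7.ne
      · linarith
  · have h3 : height l p.1 < height j p.1 := by rw [hlp]; exact h2
    have h4 : ∀ᶠ x in 𝓝[>] p.1, height l x < height j x :=
      ((height_cont l).continuousAt.eventually_lt (height_cont j).continuousAt h3).filter_mono
        nhdsWithin_le_nhds
    filter_upwards [h4] with x hx _
    refine ⟨fun h5 => absurd h5 (not_lt.mpr hx.le), ?_⟩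
    rintro (h5 | ⟨h5, -⟩)
    · exact absurd h5 (not_lt.mpr h2.le)
    · exact absurd h5 h2.ne'

lemma isVertex_of_V {Γ : Finset (ℝ × ℝ)} {k : ℕ} {p l m : ℝ × ℝ} (h : V Γ k p l m) :
    IsVertex Γ k p := by
  classical
  obtain ⟨hl, hm, hlm, hlp, hmp, hL, hR⟩ := h
  have h1 := ev_left Γ hlp
  have h2 := ev_right Γ hmp
  rw [eventually_nhdsWithin_iff, Metric.eventually_nhds_iff] at h1 h2
  obtain ⟨δ₁, hδ₁, h1⟩ := h1
  obtain ⟨δ₂, hδ₂, h2⟩ := h2
  refine ⟨l, hl, m, hm, hlm, hlp, hmp, min δ₁ δ₂, lt_min hδ₁ hδ₂, ?_, ?_⟩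
  · intro x hx1 hx2
    apply subset_closure
    refine ⟨⟨l, hl, rfl⟩, ?_⟩
    have hd : dist x p.1 < δ₁ := by
      rw [Real.dist_eq, abs_lt]
      constructor <;> linarith [min_le_left δ₁ δ₂]
    have h3 := h1 hd hx2
    rw [← hL]
    unfold level LS
    congr 1
    apply Finset.filter_congr
    intro i hi
    by_cases hil : i = l
    · subst hil
      simp only [hlp, lt_irrefl, false_or, and_false]
    · exact h3 i hi hil
  · intro x hx1 hx2
    apply subset_closure
    refine ⟨⟨m, hm, rfl⟩, ?_⟩
    have hd : dist x p.1 < δ₂ := by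
      rw [Real.dist_eq, abs_lt]
      constructor <;> linarith [min_le_right δ₁ δ₂]
    have h3 := h2 hd hx1
    rw [← hR]
    unfold level RS
    congr 1
    apply Finset.filter_congr
    intro i hi
    by_cases hil : i = m
    · subst hil
      simp only [hmp, lt_irrefl, false_or, and_false]
    · exact h3 i hi hil

lemma pick_lt (T : Finset ℝ) (c : ℕ) (hc : c < T.card) :
    ∃ s ∈ T, (T.filter (fun t => t < s)).card = c := by
  classical
  obtain ⟨g, h1, h2, h3⟩ := exists_enum T
  refine ⟨g c, h2 c hc, ?_⟩
  have : T.filter (fun t => t < g c) = (Finset.range c).image g := by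
    ext x
    rw [Finset.mem_filter, Finset.mem_image]
    constructor
    · rintro ⟨hx, hxc⟩
      obtain ⟨i, -, rfl⟩ := h3 x hx
      exact ⟨i, Finset.mem_range.mpr (h1.lt_iff_lt.mp hxc), rfl⟩
    · rintro ⟨i, hi, rfl⟩
      rw [Finset.mem_range] at hi
      exact ⟨h2 i (by omega), h1 hi⟩
  rw [this, Finset.card_image_of_injective _ h1.injective, Finset.card_range]

lemma pick_gt (T : Finset ℝ) (c : ℕ) (hc : c < T.card) :
    ∃ s ∈ T, (T.filter (fun t => s < t)).card = c := by
  classical
  have hcard : (T.image (fun x => -x)).card = T.card :=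
    Finset.card_image_of_injective _ neg_injective
  obtain ⟨s, hs, h⟩ := pick_lt (T.image (fun x => -x)) c (by rw [hcard]; exact hc)
  rw [Finset.mem_image] at hs
  obtain ⟨t, ht, rfl⟩ := hs
  refine ⟨t, ht, ?_⟩
  rw [← h]
  have : (T.image (fun x => -x)).filter (fun u => u < -t) =
      (T.filter (fun u => t < u)).image (fun x => -x) := by
    ext x
    simp only [Finset.mem_filter, Finset.mem_image]
    constructor
    · rintro ⟨⟨y, hy, rfl⟩, h1⟩
      exact ⟨y, ⟨hy, by linarith⟩, rfl⟩
    · rintro ⟨y, ⟨hy, h1⟩, rfl⟩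
      exact ⟨⟨y, hy, rfl⟩, by linarith⟩
  rw [this, Finset.card_image_of_injective _ neg_injective]

lemma order_stat (Γ : Finset (ℝ × ℝ)) (w : ℝ × ℝ → ℝ) (k : ℕ) (hk : k < Γ.card) :
    ∃ l₀ ∈ Γ, (Γ.filter (fun j => w j < w l₀)).card ≤ k ∧
      k < (Γ.filter (fun j => w j ≤ w l₀)).card := by
  classical
  set C := Γ.filter (fun l => k < (Γ.filter (fun j => w j ≤ w l)).card) with hC
  have hne : C.Nonempty := by
    have hΓ : Γ.Nonempty := Finset.card_pos.mp (by omega)
    obtain ⟨l, hl, hmax⟩ := Finset.exists_max_image Γ w hΓ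
    refine ⟨l, ?_⟩
    rw [hC, Finset.mem_filter]
    refine ⟨hl, ?_⟩
    rw [Finset.filter_true_of_mem (fun j hj => hmax j hj)]
    exact hk
  obtain ⟨l₀, hl₀, hmin⟩ := Finset.exists_min_image C w hne
  have hl₀' := hl₀
  rw [hC, Finset.mem_filter] at hl₀'
  refine ⟨l₀, hl₀'.1, ?_, hl₀'.2⟩
  by_contra hcon
  push Not at hcon
  have hne2 : (Γ.filter (fun j => w j < w l₀)).Nonempty := Finset.card_pos.mp (by omega)
  obtain ⟨l₁, hl₁, hmax⟩ := Finset.exists_max_image _ w hne2
  rw [Finset.mem_filter] at hl₁
  have h1 : l₁ ∈ C := by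
    rw [hC, Finset.mem_filter]
    refine ⟨hl₁.1, hcon.trans_le (Finset.card_le_card ?_)⟩
    intro j hj
    have h2 := hmax j hj
    rw [Finset.mem_filter] at hj ⊢
    exact ⟨hj.1, h2⟩
  have h2 := hmin l₁ h1
  linarith [hl₁.2]

/-- a point on at least two lines, at the right height, is a vertex of one of two levels -/
lemma vertex_of_class {Γ : Finset (ℝ × ℝ)} {k : ℕ} {P : ℝ × ℝ}
    (h1 : (Γ.filter (fun j => height j P.1 < P.2)).card ≤ k)
    (h2 : k < (Γ.filter (fun j => height j P.1 ≤ P.2)).card)
    (h3 : 2 ≤ (Γ.filter (fun j => height j P.1 = P.2)).card) :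
    IsVertex Γ k P ∨ IsVertex Γ (k + 1) P := by
  classical
  set L := (Γ.filter (fun j => height j P.1 < P.2)).card with hL
  set T := Γ.filter (fun j => height j P.1 = P.2) with hT
  set r := T.card with hr
  have hsum : (Γ.filter (fun j => height j P.1 ≤ P.2)).card = L + r := by
    have h4 : Γ.filter (fun j => height j P.1 ≤ P.2) =
        Γ.filter (fun j => height j P.1 < P.2) ∪ T := by
      ext j
      rw [Finset.mem_union, hT, Finset.mem_filter, Finset.mem_filter, Finset.mem_filter, le_iff_lt_or_eq]
      tauto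
    rw [h4, Finset.card_union_of_disjoint]
    rw [Finset.disjoint_left]
    intro j hj1 hj2
    rw [hT, Finset.mem_filter] at hj2
    rw [Finset.mem_filter] at hj1
    exact absurd hj2.2 hj1.2.ne
  set S := T.image Prod.fst with hS
  have hinj : Set.InjOn Prod.fst (T : Set (ℝ × ℝ)) := by
    intro i hi j hj hij
    by_contra hne
    rw [Finset.mem_coe, hT, Finset.mem_filter] at hi hj
    exact slope_ne hne hi.2 hj.2 hij
  have hScard : S.card = r := Finset.card_image_of_injOn hinj
  -- the general statement
  have key : ∀ c, c < r → 2 * c + 1 ≠ r → IsVertex Γ (L + c) P := by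
    intro c hc hcr
    obtain ⟨s, hs, hs2⟩ := pick_gt S c (by rw [hScard]; exact hc)
    obtain ⟨s', hs', hs2'⟩ := pick_lt S c (by rw [hScard]; exact hc)
    rw [hS, Finset.mem_image] at hs hs'
    obtain ⟨l, hl, rfl⟩ := hs
    obtain ⟨m, hm, rfl⟩ := hs'
    have hl' := hl
    have hm' := hm
    rw [hT, Finset.mem_filter] at hl' hm'
    have e1 : (S.filter (fun t => l.1 < t)).card = (T.filter (fun j => l.1 < j.1)).card := by
      have : S.filter (fun t => l.1 < t) = (T.filter (fun j => l.1 < j.1)).image Prod.fst := by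
        rw [hS, Finset.filter_image]
      rw [this, Finset.card_image_of_injOn]
      exact hinj.mono (Finset.coe_subset.mpr (Finset.filter_subset _ _))
    have e2 : (S.filter (fun t => t < m.1)).card = (T.filter (fun j => j.1 < m.1)).card := by
      have : S.filter (fun t => t < m.1) = (T.filter (fun j => j.1 < m.1)).image Prod.fst := by
        rw [hS, Finset.filter_image]
      rw [this, Finset.card_image_of_injOn]
      exact hinj.mono (Finset.coe_subset.mpr (Finset.filter_subset _ _))
    apply isVertex_of_V (l := l) (m := m)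
    refine ⟨hl'.1, hm'.1, ?_, hl'.2, hm'.2, ?_, ?_⟩
    · rintro rfl
      apply hcr
      have h5 : S.card = (S.filter (fun t => l.1 < t)).card + (S.filter (fun t => t < l.1)).card
          + 1 := by
        have h6 : S = (S.filter (fun t => l.1 < t) ∪ S.filter (fun t => t < l.1)) ∪ {l.1} := by
          ext t
          simp only [Finset.mem_union, Finset.mem_filter, Finset.mem_singleton]
          constructor
          · intro ht
            rcases lt_trichotomy t l.1 with h | h | h
            · exact Or.inl (Or.inr ⟨ht, h⟩)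
            · exact Or.inr h
            · exact Or.inl (Or.inl ⟨ht, h⟩)
          · rintro ((h | h) | h)
            · exact h.1
            · exact h.1
            · rw [h, hS]
              exact Finset.mem_image_of_mem _ hl
        conv_lhs => rw [h6]
        rw [Finset.card_union_of_disjoint, Finset.card_union_of_disjoint, Finset.card_singleton]
        · rw [Finset.disjoint_left]
          intro t ht1 ht2
          rw [Finset.mem_filter] at ht1 ht2
          linarith [ht1.2, ht2.2]
        · rw [Finset.disjoint_singleton_right, Finset.mem_union, Finset.mem_filter,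
            Finset.mem_filter]
          rintro (h | h)
          · exact lt_irrefl _ h.2
          · exact lt_irrefl _ h.2
      omega
    · have h5 : LS Γ P l.1 = Γ.filter (fun j => height j P.1 < P.2) ∪
          T.filter (fun j => l.1 < j.1) := by
        ext j
        unfold LS
        rw [Finset.mem_union, hT, Finset.mem_filter, Finset.mem_filter, Finset.mem_filter,
          Finset.mem_filter]
        tauto
      rw [h5, Finset.card_union_of_disjoint, ← e1, hs2]
      rw [Finset.disjoint_left]
      intro j hj1 hj2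
      rw [hT, Finset.mem_filter, Finset.mem_filter] at hj2
      rw [Finset.mem_filter] at hj1
      exact absurd hj2.1.2 hj1.2.ne
    · have h5 : RS Γ P m.1 = Γ.filter (fun j => height j P.1 < P.2) ∪
          T.filter (fun j => j.1 < m.1) := by
        ext j
        unfold RS
        rw [Finset.mem_union, hT, Finset.mem_filter, Finset.mem_filter, Finset.mem_filter,
          Finset.mem_filter]
        tauto
      rw [h5, Finset.card_union_of_disjoint, ← e2, hs2']
      rw [Finset.disjoint_left]
      intro j hj1 hj2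
      rw [hT, Finset.mem_filter, Finset.mem_filter] at hj2
      rw [Finset.mem_filter] at hj1
      exact absurd hj2.1.2 hj1.2.ne
  rw [hsum] at h2
  by_cases hc : 2 * (k - L) + 1 = r
  · right
    have := key (k + 1 - L) (by omega) (by omega)
    rwa [show L + (k + 1 - L) = k + 1 by omega] at this
  · left
    have := key (k - L) (by omega) hc
    rwa [show L + (k - L) = k by omega] at this

end Pool.Agent.R800.GL
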