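import Pool.Agent.R800.GL.Core

/-!
# Levels of arrangements of lines whose duals lie in a grid
-/

namespace Pool.Agent.R800.GL

open KLev.Levels Pool.Agent.Y375.FD Finset

lemma complexity_empty (k : ℕ) : complexity ∅ k = 0 := by
  unfold complexity
  have : {p | IsVertex ∅ k p} = ∅ := by
    ext p
    simp only [Set.mem_setOf_eq, Set.mem_empty_iff_false, iff_false]
    rintro ⟨l, hl, -⟩
    simp at hl
  rw [this, Set.ncard_empty]

lemma mm_eq (Γ : Finset (ℝ × ℝ)) (k : ℕ) :
    (mm Γ k : ℝ) = 2 * (min k (Γ.card - 1 - k) : ℕ) + 1 := by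
  unfold mm; push_cast; ring

lemma card_erase_Icc (b : ℕ) : ((Finset.Icc (-(b : ℤ)) b).erase 0).card = 2 * b := by
  rw [Finset.card_erase_of_mem (by rw [Finset.mem_Icc]; constructor <;> omega), Int.card_Icc]
  omega

/-- **Lattice parallelograms.** -/
theorem lattice (Γ : Finset (ℝ × ℝ)) (k A B : ℕ) (o u v : ℝ × ℝ) (huv : u.1 * v.2 ≠ u.2 * v.1)
    (hΓ : ∀ l ∈ Γ, ∃ i < A, ∃ j < B, l = o + (i : ℝ) • u + (j : ℝ) • v) :
    (complexity Γ k : ℝ) ≤
      8 * ((A : ℝ) * B * (2 * (min k (Γ.card - 1 - k) : ℕ) + 1) ^ 2) ^ ((1 : ℝ) / 3) := by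
  classical
  rcases Γ.eq_empty_or_nonempty with rfl | ⟨l₀, hl₀⟩
  · rw [complexity_empty]
    simp only [Nat.cast_zero]
    positivity
  choose! I hI J hJ using hΓ
  have hA : 1 ≤ A := by have := hI l₀ hl₀; omega
  have hB : 1 ≤ B := by have := (hJ l₀ hl₀).1; omega
  set D : ℝ := u.1 * v.2 - u.2 * v.1 with hD
  have hD0 : D ≠ 0 := sub_ne_zero.mpr huv
  have hform : ∀ l ∈ Γ, l.1 = o.1 + I l * u.1 + J l * v.1 ∧ l.2 = o.2 + I l * u.2 + J l * v.2 := by
    intro l hl
    have h1 := (hJ l hl).2
    constructor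
    · have := congrArg Prod.fst h1
      simpa using this
    · have := congrArg Prod.snd h1
      simpa using this
  have hmono : ∀ φ E : ℝ, E ≠ 0 → StrictMono (fun i : ℕ => φ + i * E) ∨
      StrictAnti (fun i : ℕ => φ + i * E) := by
    intro φ E hE
    rcases lt_or_gt_of_ne hE with h | h
    · right
      intro i j hij
      have : (i : ℝ) < j := by exact_mod_cast hij
      show φ + j * E < φ + i * E
      nlinarith
    · left
      intro i j hij
      have : (i : ℝ) < j := by exact_mod_cast hij
      show φ + i * E < φ + j * E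
      nlinarith
  have hv : v.2 ≠ 0 ∨ -v.1 ≠ 0 := by
    by_contra h
    push Not at h
    apply hD0
    rw [hD, h.1, neg_eq_zero.mp h.2]; ring
  have hu : u.2 ≠ 0 ∨ -u.1 ≠ 0 := by
    by_contra h
    push Not at h
    apply hD0
    rw [hD, h.1, neg_eq_zero.mp h.2]; ring
  set Xf : ℤ → ℤ → ℝ := fun s t => -(s * u.2 + t * v.2) / (s * u.1 + t * v.1) with hXf
  have key := core (Γ := Γ) k A B 1 hA hB le_rfl hv hu I J
    (fun i => (v.2 * o.1 - v.1 * o.2) + i * D) (fun j => (u.2 * o.1 - u.1 * o.2) + j * (-D))
    (hmono _ _ hD0) (hmono _ _ (neg_ne_zero.mpr hD0)) ?_ ?_ ?_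
  · rw [mm_eq] at key
    simpa using key
  · intro l hl
    refine ⟨hI l hl, ?_⟩
    obtain ⟨h1, h2⟩ := hform l hl
    show v.2 * l.1 + -v.1 * l.2 = (v.2 * o.1 - v.1 * o.2) + I l * D
    rw [h1, h2, hD]; ring
  · intro l hl
    refine ⟨(hJ l hl).1, ?_⟩
    obtain ⟨h1, h2⟩ := hform l hl
    show u.2 * l.1 + -u.1 * l.2 = (u.2 * o.1 - u.1 * o.2) + J l * -D
    rw [h1, h2, hD]; ring
  · intro a b
    refine ⟨((Finset.Icc (1 : ℤ) a) ×ˢ ((Finset.Icc (-(b : ℤ)) b).erase 0)).image
      (fun z => Xf z.1 z.2) ∪ {Xf 1 0, Xf 0 1}, ?_, ?_⟩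
    · refine (Finset.card_union_le _ _).trans ?_
      have h1 : (((Finset.Icc (1 : ℤ) a) ×ˢ ((Finset.Icc (-(b : ℤ)) b).erase 0)).image
          (fun z => Xf z.1 z.2)).card ≤ a * (2 * b) := by
        refine Finset.card_image_le.trans ?_
        rw [Finset.card_product, card_erase_Icc, Int.card_Icc]
        have : ((a : ℤ) + 1 - 1).toNat = a := by omega
        rw [this]
      have h2 : ({Xf 1 0, Xf 0 1} : Finset ℝ).card ≤ 2 := Finset.card_le_two
      have h3 : 2 * 1 * a * b = a * (2 * b) := by ring
      omega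
    · intro l hl m hm hs h1 h2 h3 h4
      obtain ⟨e1, e2⟩ := hform l hl
      obtain ⟨e3, e4⟩ := hform m hm
      set s : ℤ := (I l : ℤ) - I m with hsdef
      set t : ℤ := (J l : ℤ) - J m with htdef
      have hsr : (s : ℝ) = (I l : ℝ) - I m := by rw [hsdef]; push_cast; ring
      have htr : (t : ℝ) = (J l : ℝ) - J m := by rw [htdef]; push_cast; ring
      have hden : l.1 - m.1 = s * u.1 + t * v.1 := by rw [e1, e3, hsr, htr]; ring
      have hnum : m.2 - l.2 = -(s * u.2 + t * v.2) := by rw [e2, e4, hsr, htr]; ring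
      have hne : (s : ℝ) * u.1 + t * v.1 ≠ 0 := by
        rw [← hden]; exact sub_ne_zero.mpr hs
      have hcr : cross l m = Xf s t := by
        unfold cross
        rw [hden, hnum]
      have hneg : Xf s t = Xf (-s) (-t) := by
        simp only [hXf]
        push_cast
        have e : (-(s : ℝ)) * u.1 + (-(t : ℝ)) * v.1 = -(s * u.1 + t * v.1) := by ring
        rw [e, div_neg, ← neg_div]
        congr 1
        ring
      have hsa : -(a : ℤ) ≤ s ∧ s ≤ a := by omega
      have htb : -(b : ℤ) ≤ t ∧ t ≤ b := by omega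
      rw [hcr, Finset.mem_union]
      rcases lt_trichotomy s 0 with h | h | h
      · by_cases ht : t = 0
        · right
          rw [Finset.mem_insert]
          left
          simp only [hXf, ht, Int.cast_zero, zero_mul, add_zero, Int.cast_one, one_mul]
          rw [ht] at hne
          simp only [Int.cast_zero, zero_mul, add_zero] at hne
          have hs0 : (s : ℝ) ≠ 0 := left_ne_zero_of_mul hne
          have hu0 : u.1 ≠ 0 := right_ne_zero_of_mul hne
          field_simp
        · left
          rw [Finset.mem_image]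
          refine ⟨(-s, -t), ?_, hneg.symm⟩
          rw [Finset.mem_product, Finset.mem_Icc, Finset.mem_erase, Finset.mem_Icc]
          refine ⟨⟨by simp only; omega, by simp only; omega⟩, by simp only; omega,
            by simp only; omega, by simp only; omega⟩
      · right
        rw [Finset.mem_insert, Finset.mem_singleton]
        right
        simp only [hXf, h, Int.cast_zero, zero_mul, zero_add, Int.cast_one, one_mul]
        rw [h] at hne
        simp only [Int.cast_zero, zero_mul, zero_add] at hne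
        have ht0 : (t : ℝ) ≠ 0 := left_ne_zero_of_mul hne
        have hv0 : v.1 ≠ 0 := right_ne_zero_of_mul hne
        field_simp
      · by_cases ht : t = 0
        · right
          rw [Finset.mem_insert]
          left
          simp only [hXf, ht, Int.cast_zero, zero_mul, add_zero, Int.cast_one, one_mul]
          rw [ht] at hne
          simp only [Int.cast_zero, zero_mul, add_zero] at hne
          have hs0 : (s : ℝ) ≠ 0 := left_ne_zero_of_mul hne
          have hu0 : u.1 ≠ 0 := right_ne_zero_of_mul hne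
          field_simp
        · left
          rw [Finset.mem_image]
          refine ⟨(s, t), ?_, rfl⟩
          rw [Finset.mem_product, Finset.mem_Icc, Finset.mem_erase, Finset.mem_Icc]
          refine ⟨⟨by simp only; omega, by simp only; omega⟩, by simp only; omega,
            by simp only; omega, by simp only; omega⟩

/-- a finite set of reals is an initial piece of a strictly increasing sequence -/
lemma exists_enum (S : Finset ℝ) : ∃ g : ℕ → ℝ, StrictMono g ∧ (∀ i < S.card, g i ∈ S) ∧
    ∀ x ∈ S, ∃ i < S.card, g i = x := by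
  classical
  refine Finset.induction_on_max S ?_ ?_
  · exact ⟨fun i => (i : ℝ), Nat.strictMono_cast, by simp, by simp⟩
  · intro a S hmax ih
    obtain ⟨g, h1, h2, h3⟩ := ih
    have ha : a ∉ S := fun h => lt_irrefl _ (hmax a h)
    refine ⟨fun i => if i < S.card then g i else a + ((i : ℝ) - S.card), ?_, ?_, ?_⟩
    · intro i j hij
      show (if i < S.card then g i else a + ((i : ℝ) - S.card)) <
        (if j < S.card then g j else a + ((j : ℝ) - S.card))
      have hij' : (i : ℝ) < j := by exact_mod_cast hij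
      by_cases hj : j < S.card
      · rw [if_pos (hij.trans hj), if_pos hj]
        exact h1 hij
      · rw [if_neg hj]
        have hj' : (S.card : ℝ) ≤ j := by exact_mod_cast not_lt.mp hj
        by_cases hi : i < S.card
        · rw [if_pos hi]
          have := hmax _ (h2 i hi)
          linarith
        · rw [if_neg hi]
          linarith
    · intro i hi
      rw [Finset.card_insert_of_notMem ha] at hi
      show (if i < S.card then g i else a + ((i : ℝ) - S.card)) ∈ _
      by_cases h : i < S.card
      · rw [if_pos h]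
        exact Finset.mem_insert_of_mem (h2 i h)
      · have : i = S.card := by omega
        rw [if_neg h, this, sub_self, add_zero]
        exact Finset.mem_insert_self _ _
    · intro x hx
      rw [Finset.card_insert_of_notMem ha]
      rw [Finset.mem_insert] at hx
      rcases hx with rfl | hx
      · exact ⟨S.card, by omega, by simp⟩
      · obtain ⟨i, hi, h4⟩ := h3 x hx
        exact ⟨i, by omega, by simp only [if_pos hi]; exact h4⟩

/-- **Arbitrary slopes, intercepts in an arithmetic progression.** -/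
theorem slopes (Γ : Finset (ℝ × ℝ)) (k A B : ℕ) (β ε : ℝ) (hε : 0 < ε)
    (hA' : (Γ.image Prod.fst).card ≤ A) (hΓ : ∀ l ∈ Γ, ∃ j < B, l.2 = β + (j : ℕ) * ε) :
    (complexity Γ k : ℝ) ≤
      8 * ((A : ℝ) ^ 2 * B * (2 * (min k (Γ.card - 1 - k) : ℕ) + 1) ^ 2) ^ ((1 : ℝ) / 3) := by
  classical
  rcases Γ.eq_empty_or_nonempty with rfl | ⟨l₀, hl₀⟩
  · rw [complexity_empty]
    simp only [Nat.cast_zero]
    positivity
  choose! J hJ hJ2 using hΓ
  obtain ⟨g, hg, hg2, hg3⟩ := exists_enum (Γ.image Prod.fst)
  have hI0 : ∀ l ∈ Γ, ∃ i < (Γ.image Prod.fst).card, g i = l.1 :=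
    fun l hl => hg3 _ (Finset.mem_image_of_mem _ hl)
  choose! I hI hI2 using hI0
  have hI1 : ∀ l ∈ Γ, I l < A := fun l hl => (hI l hl).trans_le hA'
  have hA : 1 ≤ A := by have := hI1 l₀ hl₀; omega
  have hB : 1 ≤ B := by have := hJ l₀ hl₀; omega
  have hh : StrictMono (fun j : ℕ => β + j * ε) := by
    intro i j hij
    have : (i : ℝ) < j := by exact_mod_cast hij
    show β + i * ε < β + j * ε
    nlinarith
  have key := core (Γ := Γ) k A B A hA hB hA (c₁ := 1) (c₂ := 0) (d₁ := 0) (d₂ := 1)
    (Or.inl one_ne_zero) (Or.inr one_ne_zero) I J g (fun j : ℕ => β + j * ε) (Or.inl hg)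
    (Or.inl hh) ?_ ?_ ?_
  · rw [mm_eq, show (A : ℝ) * A = (A : ℝ) ^ 2 by ring] at key
    exact key
  · intro l hl
    refine ⟨hI1 l hl, ?_⟩
    rw [hI2 l hl]; ring
  · intro l hl
    refine ⟨hJ l hl, ?_⟩
    show 0 * l.1 + 1 * l.2 = β + J l * ε
    rw [hJ2 l hl]; ring
  · intro a b
    refine ⟨((Finset.range A) ×ˢ ((Finset.Icc 1 a) ×ˢ ((Finset.Icc (-(b : ℤ)) b).erase 0))).image
      (fun z : ℕ × ℕ × ℤ => -(z.2.2 * ε) / (g (z.1 + z.2.1) - g z.1)) ∪ {0}, ?_, ?_⟩
    · refine (Finset.card_union_le _ _).trans ?_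
      have h1 : (((Finset.range A) ×ˢ ((Finset.Icc 1 a) ×ˢ
          ((Finset.Icc (-(b : ℤ)) b).erase 0))).image
          (fun z : ℕ × ℕ × ℤ => -(z.2.2 * ε) / (g (z.1 + z.2.1) - g z.1))).card ≤
          A * (a * (2 * b)) := by
        refine Finset.card_image_le.trans ?_
        rw [Finset.card_product, Finset.card_product, card_erase_Icc, Nat.card_Icc,
          Finset.card_range]
        simp
      have h2 : ({0} : Finset ℝ).card = 1 := Finset.card_singleton _
      have h3 : 2 * A * a * b = A * (a * (2 * b)) := by ring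
      omega
    · intro l hl m hm hs h1 h2 h3 h4
      have hIne : I l ≠ I m := by
        intro h
        apply hs
        rw [← hI2 l hl, ← hI2 m hm, h]
      rw [Finset.mem_union]
      by_cases hJe : J l = J m
      · right
        rw [Finset.mem_singleton]
        unfold cross
        rw [hJ2 l hl, hJ2 m hm, hJe]
        simp
      left
      rw [Finset.mem_image]
      rcases lt_or_gt_of_ne hIne with h | h
      · refine ⟨(I l, I m - I l, (J m : ℤ) - J l), ?_, ?_⟩
        · rw [Finset.mem_product, Finset.mem_product, Finset.mem_range, Finset.mem_Icc,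
            Finset.mem_erase, Finset.mem_Icc]
          refine ⟨hI1 l hl, ⟨by simp only; omega, by simp only; omega⟩, by simp only; omega,
            by simp only; omega, by simp only; omega⟩
        · show -((((J m : ℤ) - J l : ℤ) : ℝ) * ε) / (g (I l + (I m - I l)) - g (I l)) = _
          rw [show I l + (I m - I l) = I m by omega, hI2 l hl, hI2 m hm]
          unfold cross
          rw [hJ2 l hl, hJ2 m hm]
          push_cast
          rw [← neg_sub m.1 l.1, div_neg, neg_div]
          congr 2
          ring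
      · refine ⟨(I m, I l - I m, (J l : ℤ) - J m), ?_, ?_⟩
        · rw [Finset.mem_product, Finset.mem_product, Finset.mem_range, Finset.mem_Icc,
            Finset.mem_erase, Finset.mem_Icc]
          refine ⟨hI1 m hm, ⟨by simp only; omega, by simp only; omega⟩, by simp only; omega,
            by simp only; omega, by simp only; omega⟩
        · show -((((J l : ℤ) - J m : ℤ) : ℝ) * ε) / (g (I m + (I l - I m)) - g (I m)) = _
          rw [show I m + (I l - I m) = I l by omega, hI2 l hl, hI2 m hm]
          unfold cross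
          rw [hJ2 l hl, hJ2 m hm]
          push_cast
          congr 1
          ring

/-- **Arbitrary intercepts, slopes in an arithmetic progression.** -/
theorem intercepts (Γ : Finset (ℝ × ℝ)) (k A B : ℕ) (α δ : ℝ) (hδ : 0 < δ)
    (hB' : (Γ.image Prod.snd).card ≤ B) (hΓ : ∀ l ∈ Γ, ∃ i < A, l.1 = α + (i : ℕ) * δ) :
    (complexity Γ k : ℝ) ≤
      8 * ((A : ℝ) * (B : ℝ) ^ 2 * (2 * (min k (Γ.card - 1 - k) : ℕ) + 1) ^ 2) ^ ((1 : ℝ) / 3) := by
  classical
  rcases Γ.eq_empty_or_nonempty with rfl | ⟨l₀, hl₀⟩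
  · rw [complexity_empty]
    simp only [Nat.cast_zero]
    positivity
  choose! I hI1 hI2 using hΓ
  obtain ⟨h, hh, hh2, hh3⟩ := exists_enum (Γ.image Prod.snd)
  have hJ0 : ∀ l ∈ Γ, ∃ i < (Γ.image Prod.snd).card, h i = l.2 :=
    fun l hl => hh3 _ (Finset.mem_image_of_mem _ hl)
  choose! J hJ hJ2 using hJ0
  have hJ1 : ∀ l ∈ Γ, J l < B := fun l hl => (hJ l hl).trans_le hB'
  have hA : 1 ≤ A := by have := hI1 l₀ hl₀; omega
  have hB : 1 ≤ B := by have := hJ1 l₀ hl₀; omega
  have hg : StrictMono (fun j : ℕ => α + j * δ) := by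
    intro i j hij
    have : (i : ℝ) < j := by exact_mod_cast hij
    show α + i * δ < α + j * δ
    nlinarith
  have key := core (Γ := Γ) k A B B hA hB hB (c₁ := 1) (c₂ := 0) (d₁ := 0) (d₂ := 1)
    (Or.inl one_ne_zero) (Or.inr one_ne_zero) I J (fun j : ℕ => α + j * δ) h (Or.inl hg)
    (Or.inl hh) ?_ ?_ ?_
  · rw [mm_eq, show (B : ℝ) * A * B = (A : ℝ) * (B : ℝ) ^ 2 by ring] at key
    exact key
  · intro l hl
    refine ⟨hI1 l hl, ?_⟩
    show 1 * l.1 + 0 * l.2 = α + I l * δ
    rw [hI2 l hl]; ring
  · intro l hl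
    refine ⟨hJ1 l hl, ?_⟩
    rw [hJ2 l hl]; ring
  · intro a b
    refine ⟨((Finset.range B) ×ˢ ((Finset.Icc 1 b) ×ˢ ((Finset.Icc (-(a : ℤ)) a).erase 0))).image
      (fun z : ℕ × ℕ × ℤ => -(h (z.1 + z.2.1) - h z.1) / (z.2.2 * δ)) ∪ {0}, ?_, ?_⟩
    · refine (Finset.card_union_le _ _).trans ?_
      have h1 : (((Finset.range B) ×ˢ ((Finset.Icc 1 b) ×ˢ
          ((Finset.Icc (-(a : ℤ)) a).erase 0))).image
          (fun z : ℕ × ℕ × ℤ => -(h (z.1 + z.2.1) - h z.1) / (z.2.2 * δ))).card ≤
          B * (b * (2 * a)) := by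
        refine Finset.card_image_le.trans ?_
        rw [Finset.card_product, Finset.card_product, card_erase_Icc, Nat.card_Icc,
          Finset.card_range]
        simp
      have h2 : ({0} : Finset ℝ).card = 1 := Finset.card_singleton _
      have h3 : 2 * B * a * b = B * (b * (2 * a)) := by ring
      omega
    · intro l hl m hm hs h1 h2 h3 h4
      have hIne : I l ≠ I m := by
        intro h
        apply hs
        rw [hI2 l hl, hI2 m hm, h]
      rw [Finset.mem_union]
      by_cases hJe : J l = J m
      · right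
        rw [Finset.mem_singleton]
        unfold cross
        rw [← hJ2 l hl, ← hJ2 m hm, hJe]
        simp
      left
      rw [Finset.mem_image]
      rcases lt_or_gt_of_ne hJe with hJ3 | hJ3
      · refine ⟨(J l, J m - J l, (I m : ℤ) - I l), ?_, ?_⟩
        · rw [Finset.mem_product, Finset.mem_product, Finset.mem_range, Finset.mem_Icc,
            Finset.mem_erase, Finset.mem_Icc]
          refine ⟨hJ1 l hl, ⟨by simp only; omega, by simp only; omega⟩, by simp only; omega,
            by simp only; omega, by simp only; omega⟩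
        · show -(h (J l + (J m - J l)) - h (J l)) / ((((I m : ℤ) - I l : ℤ) : ℝ) * δ) = _
          rw [show J l + (J m - J l) = J m by omega, hJ2 l hl, hJ2 m hm]
          unfold cross
          rw [hI2 l hl, hI2 m hm]
          push_cast
          rw [show α + (I l : ℝ) * δ - (α + (I m : ℝ) * δ) = -(((I m : ℝ) - I l) * δ) by ring,
            div_neg, neg_div]
      · refine ⟨(J m, J l - J m, (I l : ℤ) - I m), ?_, ?_⟩
        · rw [Finset.mem_product, Finset.mem_product, Finset.mem_range, Finset.mem_Icc,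
            Finset.mem_erase, Finset.mem_Icc]
          refine ⟨hJ1 m hm, ⟨by simp only; omega, by simp only; omega⟩, by simp only; omega,
            by simp only; omega, by simp only; omega⟩
        · show -(h (J m + (J l - J m)) - h (J m)) / ((((I l : ℤ) - I m : ℤ) : ℝ) * δ) = _
          rw [show J m + (J l - J m) = J l by omega, hJ2 l hl, hJ2 m hm]
          unfold cross
          rw [hI2 l hl, hI2 m hm]
          push_cast
          rw [show α + (I l : ℝ) * δ - (α + (I m : ℝ) * δ) = ((I l : ℝ) - I m) * δ by ring,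
            neg_sub]

end Pool.Agent.R800.GL
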