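import Pool.Agent.R800.GL.Full

/-!
# Lower bound for the middle levels of the full grid arrangement
-/

namespace Pool.Agent.R800.GL

open KLev.Levels Pool.Agent.Y375.FD Finset

/-- the embedding of pairs of naturals -/
noncomputable def emb : ℕ × ℕ ↪ ℝ × ℝ where
  toFun z := ((z.1 : ℝ), (z.2 : ℝ))
  inj' := by
    intro z z' h
    simp only [Prod.mk.injEq, Nat.cast_inj] at h
    exact Prod.ext h.1 h.2

lemma eq_map {N : ℕ} {Γ : Finset (ℝ × ℝ)}
    (hΓ : ∀ l : ℝ × ℝ, l ∈ Γ ↔ ∃ a < N, ∃ b < N, l = ((a : ℝ), (b : ℝ))) :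
    Γ = (Finset.range N ×ˢ Finset.range N).map emb := by
  ext l
  rw [hΓ, Finset.mem_map]
  constructor
  · rintro ⟨a, ha, b, hb, rfl⟩
    exact ⟨(a, b), by simp [ha, hb], rfl⟩
  · rintro ⟨z, hz, rfl⟩
    rw [Finset.mem_product, Finset.mem_range, Finset.mem_range] at hz
    exact ⟨z.1, hz.1, z.2, hz.2, rfl⟩

lemma card_full {N : ℕ} {Γ : Finset (ℝ × ℝ)}
    (hΓ : ∀ l : ℝ × ℝ, l ∈ Γ ↔ ∃ a < N, ∃ b < N, l = ((a : ℝ), (b : ℝ))) :
    Γ.card = N ^ 2 := by
  rw [eq_map hΓ, Finset.card_map, Finset.card_product, Finset.card_range, sq]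

lemma grid_point {N : ℕ} {Γ : Finset (ℝ × ℝ)}
    (hΓ : ∀ l : ℝ × ℝ, l ∈ Γ ↔ ∃ a < N, ∃ b < N, l = ((a : ℝ), (b : ℝ)))
    {k : ℕ} (hk1 : N ^ 2 ≤ 4 * k) (hk2 : 4 * k < 3 * N ^ 2) {p q : ℕ} (hp : 1 ≤ p) (hq : 1 ≤ q)
    (hpN : 8 * p ≤ N) (hqN : 8 * q ≤ N) :
    ∃ y : ℝ, IsVertex Γ k (-(q : ℝ) / p, y) ∨ IsVertex Γ (k + 1) (-(q : ℝ) / p, y) := by
  classical
  have hc := card_full hΓ
  set x : ℝ := -(q : ℝ) / p with hx
  have hp0 : (0 : ℝ) < p := by exact_mod_cast hp
  obtain ⟨l₀, hl₀, h1, h2⟩ := order_stat Γ (fun j => height j x) k (by rw [hc]; omega)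
  refine ⟨height l₀ x, vertex_of_class (P := (x, height l₀ x)) h1 h2 ?_⟩
  obtain ⟨a₀, ha₀, b₀, hb₀, rfl⟩ := (hΓ l₀).mp hl₀
  have hval : ∀ a b : ℕ, height ((a : ℝ), (b : ℝ)) x = ((b : ℝ) * p - a * q) / p := by
    intro a b
    unfold height
    rw [hx]
    field_simp
    ring
  have hle : ∀ a b : ℕ, height ((a : ℝ), (b : ℝ)) x ≤ height ((a₀ : ℝ), (b₀ : ℝ)) x ↔
      b * p + a₀ * q ≤ b₀ * p + a * q := by
    intro a b
    rw [hval, hval, div_le_div_iff_of_pos_right hp0]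
    constructor
    · intro h
      have : (b : ℝ) * p + a₀ * q ≤ b₀ * p + a * q := by linarith
      exact_mod_cast this
    · intro h
      have : (b : ℝ) * p + a₀ * q ≤ b₀ * p + a * q := by exact_mod_cast h
      linarith
  have hlt : ∀ a b : ℕ, height ((a : ℝ), (b : ℝ)) x < height ((a₀ : ℝ), (b₀ : ℝ)) x ↔
      b * p + a₀ * q < b₀ * p + a * q := by
    intro a b
    rw [hval, hval, div_lt_div_iff_of_pos_right hp0]
    constructor
    · intro h
      have : (b : ℝ) * p + a₀ * q < b₀ * p + a * q := by linarith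
      exact_mod_cast this
    · intro h
      have : (b : ℝ) * p + a₀ * q < b₀ * p + a * q := by exact_mod_cast h
      linarith
  have htwo : ∀ a b : ℕ, a < N → b < N → a ≠ a₀ → b * p + a₀ * q = b₀ * p + a * q →
      2 ≤ (Γ.filter (fun j => height j x = height ((a₀ : ℝ), (b₀ : ℝ)) x)).card := by
    intro a b ha hb hne he
    show 1 < _
    rw [Finset.one_lt_card]
    refine ⟨((a : ℝ), (b : ℝ)), ?_, ((a₀ : ℝ), (b₀ : ℝ)), ?_, ?_⟩
    · rw [Finset.mem_filter]
      refine ⟨(hΓ _).mpr ⟨a, ha, b, hb, rfl⟩, le_antisymm ((hle a b).mpr he.le) ?_⟩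
      have := (hlt a b)
      by_contra hcon
      push Not at hcon
      have := this.mp hcon
      omega
    · rw [Finset.mem_filter]
      exact ⟨hl₀, rfl⟩
    · intro h
      rw [Prod.mk.injEq, Nat.cast_inj] at h
      exact hne h.1
  by_cases c1 : a₀ + p < N ∧ b₀ + q < N
  · exact htwo (a₀ + p) (b₀ + q) c1.1 c1.2 (by omega) (by ring)
  by_cases c2 : p ≤ a₀ ∧ q ≤ b₀
  · refine htwo (a₀ - p) (b₀ - q) (by omega) (by omega) (by omega) ?_
    obtain ⟨a', rfl⟩ := Nat.exists_eq_add_of_le c2.1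
    obtain ⟨b', rfl⟩ := Nat.exists_eq_add_of_le c2.2
    rw [Nat.add_sub_cancel_left, Nat.add_sub_cancel_left]
    ring
  exfalso
  by_cases c3 : a₀ + p < N
  · -- then `b₀ + q ≥ N`, so `a₀ < p`
    have c4 : N ≤ b₀ + q := by
      by_contra h
      exact c1 ⟨c3, by omega⟩
    have c5 : a₀ < p := by
      by_contra h
      exact c2 ⟨by omega, by omega⟩
    have hsplit := Finset.card_filter_add_card_filter_not (s := Γ)
      (fun j => height j x < height ((a₀ : ℝ), (b₀ : ℝ)) x)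
    have hle2 : (Γ.filter (fun j => ¬ height j x < height ((a₀ : ℝ), (b₀ : ℝ)) x)).card ≤
        N * (2 * q) := by
      rw [eq_map hΓ, Finset.filter_map, Finset.card_map]
      have hsub : (Finset.range N ×ˢ Finset.range N).filter
          ((fun j => ¬ height j x < height ((a₀ : ℝ), (b₀ : ℝ)) x) ∘ emb) ⊆
          Finset.range N ×ˢ Finset.Ico (N - 2 * q) N := by
        intro z hz
        rw [Finset.mem_filter, Finset.mem_product, Finset.mem_range, Finset.mem_range] at hz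
        rw [Finset.mem_product, Finset.mem_range, Finset.mem_Ico]
        refine ⟨hz.1.1, ?_, hz.1.2⟩
        have h3 : ¬ height ((z.1 : ℝ), (z.2 : ℝ)) x < height ((a₀ : ℝ), (b₀ : ℝ)) x := hz.2
        rw [hlt] at h3
        have h4 : N * p ≤ z.2 * p + 2 * q * p := by
          have h5 : b₀ * p ≤ z.2 * p + a₀ * q := by omega
          have h6 : N * p ≤ (b₀ + q) * p := Nat.mul_le_mul_right p c4
          have h7 : a₀ * q ≤ p * q := Nat.mul_le_mul_right q c5.le
          nlinarith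
        have h5 : N ≤ z.2 + 2 * q := by
          have h6 : N * p ≤ (z.2 + 2 * q) * p := by nlinarith
          exact Nat.le_of_mul_le_mul_right h6 hp
        omega
      refine (Finset.card_le_card hsub).trans ?_
      rw [Finset.card_product, Finset.card_range, Nat.card_Ico]
      exact Nat.mul_le_mul_left N (by omega)
    rw [hc] at hsplit
    have h3 : 8 * q * N ≤ N * N := Nat.mul_le_mul_right N hqN
    nlinarith
  · -- then `a₀ ≥ p`, so `b₀ < q`
    have c5 : b₀ < q := by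
      by_contra h
      exact c2 ⟨by omega, by omega⟩
    have hle2 : (Γ.filter (fun j => height j x ≤ height ((a₀ : ℝ), (b₀ : ℝ)) x)).card ≤
        N * (2 * q) := by
      rw [eq_map hΓ, Finset.filter_map, Finset.card_map]
      have hsub : (Finset.range N ×ˢ Finset.range N).filter
          ((fun j => height j x ≤ height ((a₀ : ℝ), (b₀ : ℝ)) x) ∘ emb) ⊆
          Finset.range N ×ˢ Finset.range (2 * q) := by
        intro z hz
        rw [Finset.mem_filter, Finset.mem_product, Finset.mem_range, Finset.mem_range] at hz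
        rw [Finset.mem_product, Finset.mem_range, Finset.mem_range]
        refine ⟨hz.1.1, ?_⟩
        have h3 : height ((z.1 : ℝ), (z.2 : ℝ)) x ≤ height ((a₀ : ℝ), (b₀ : ℝ)) x := hz.2
        rw [hle] at h3
        have h4 : z.1 ≤ a₀ + p := by omega
        have h5 : z.1 * q ≤ (a₀ + p) * q := Nat.mul_le_mul_right q h4
        have h6 : (b₀ + 1) * p ≤ q * p := Nat.mul_le_mul_right p c5
        have h7 : z.2 * p < (2 * q) * p := by nlinarith
        exact lt_of_mul_lt_mul_right h7 (Nat.zero_le p)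
      refine (Finset.card_le_card hsub).trans ?_
      rw [Finset.card_product, Finset.card_range, Finset.card_range]
    have h3 : 8 * q * N ≤ N * N := Nat.mul_le_mul_right N hqN
    have h4 : k < N * (2 * q) := lt_of_lt_of_le h2 hle2
    nlinarith

/-- **Lower bound for the full grid.** -/
theorem sharp {N : ℕ} (hN : 8 ≤ N) {Γ : Finset (ℝ × ℝ)}
    (hΓ : ∀ l : ℝ × ℝ, l ∈ Γ ↔ ∃ a < N, ∃ b < N, l = ((a : ℝ), (b : ℝ)))
    {k : ℕ} (hk1 : N ^ 2 ≤ 4 * k) (hk2 : 4 * k < 3 * N ^ 2) :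
    N ^ 2 ≤ 512 * (complexity Γ k + complexity Γ (k + 1)) := by
  classical
  set H := N / 8 with hH
  have hH1 : 1 ≤ H := by omega
  have hH2 : 8 * H ≤ N := by omega
  have hH3 : N ≤ 16 * H := by omega
  set F := (Finset.Icc 1 H ×ˢ Finset.Icc 1 H).filter (fun z => Nat.Coprime z.1 z.2) with hF
  have hFc := coprime_count H
  have hpt : ∀ z ∈ F, ∃ y : ℝ, IsVertex Γ k (-(z.2 : ℝ) / z.1, y) ∨
      IsVertex Γ (k + 1) (-(z.2 : ℝ) / z.1, y) := by
    intro z hz
    rw [hF, Finset.mem_filter, Finset.mem_product, Finset.mem_Icc, Finset.mem_Icc] at hz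
    exact grid_point hΓ hk1 hk2 hz.1.1.1 hz.1.2.1 (by omega) (by omega)
  choose! Y hY using hpt
  have hfin : ({P | IsVertex Γ k P} ∪ {P | IsVertex Γ (k + 1) P}).Finite :=
    (vertices_finite Γ k).union (vertices_finite Γ (k + 1))
  have hmaps : ∀ z ∈ (F : Set (ℕ × ℕ)), (fun z : ℕ × ℕ => ((-(z.2 : ℝ) / z.1, Y z) : ℝ × ℝ)) z ∈
      ({P | IsVertex Γ k P} ∪ {P | IsVertex Γ (k + 1) P} : Set (ℝ × ℝ)) := by
    intro z hz
    exact hY z hz
  have hinj : Set.InjOn (fun z : ℕ × ℕ => ((-(z.2 : ℝ) / z.1, Y z) : ℝ × ℝ))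
      (F : Set (ℕ × ℕ)) := by
    intro z hz z' hz' h
    rw [Finset.mem_coe, hF, Finset.mem_filter, Finset.mem_product, Finset.mem_Icc,
      Finset.mem_Icc] at hz hz'
    simp only [Prod.mk.injEq] at h
    have h1 := h.1
    have hz0 : (z.1 : ℝ) ≠ 0 := by
      have := hz.1.1.1
      exact Nat.cast_ne_zero.mpr (by omega)
    have hz0' : (z'.1 : ℝ) ≠ 0 := by
      have := hz'.1.1.1
      exact Nat.cast_ne_zero.mpr (by omega)
    rw [div_eq_div_iff hz0 hz0'] at h1
    have h2 : z.2 * z'.1 = z'.2 * z.1 := by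
      have : (z.2 : ℝ) * z'.1 = z'.2 * z.1 := by linarith
      exact_mod_cast this
    have h3 : z.1 ∣ z'.1 := by
      have : z.1 ∣ z.2 * z'.1 := ⟨z'.2, by rw [h2]; ring⟩
      exact hz.2.dvd_of_dvd_mul_left this
    have h4 : z'.1 ∣ z.1 := by
      have : z'.1 ∣ z'.2 * z.1 := ⟨z.2, by rw [← h2]; ring⟩
      exact hz'.2.dvd_of_dvd_mul_left this
    have h5 : z.1 = z'.1 := Nat.dvd_antisymm h3 h4
    have h6 : z.2 = z'.2 := by
      rw [h5] at h2
      exact Nat.eq_of_mul_eq_mul_right (by have := hz'.1.1.1; omega) h2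
    exact Prod.ext h5 h6
  have h1 := Set.ncard_le_ncard_of_injOn _ hmaps hinj hfin
  rw [Set.ncard_coe_finset] at h1
  have h2 : F.card ≤ complexity Γ k + complexity Γ (k + 1) :=
    h1.trans (Set.ncard_union_le _ _)
  have h3 : N ^ 2 ≤ (16 * H) ^ 2 := Nat.pow_le_pow_left hH3 2
  have h4 : (16 * H) ^ 2 = 256 * H ^ 2 := by ring
  rw [← hF] at hFc
  omega

end Pool.Agent.R800.GL
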