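import Pool.Agent.Y375.FD.Upper

/-!
# Crossings of a level with a point: thresholds for a linear functional of the lines
-/

namespace Pool.Agent.R800.GL

open KLev.Levels Pool.Agent.Y375.FD Finset

/-- the bound `2 min (k, n - 1 - k) + 1` -/
def mm (Γ : Finset (ℝ × ℝ)) (k : ℕ) : ℕ := 2 * min k (Γ.card - 1 - k) + 1

lemma card_refl (Γ : Finset (ℝ × ℝ)) : (Γ.image refl).card = Γ.card :=
  Finset.card_image_of_injective _ refl_inj

lemma VT_min {Γ : Finset (ℝ × ℝ)} {k : ℕ} {τ : ℝ} (hτ : ∀ j ∈ Γ, j.1 ≠ τ) :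
    (VT Γ k τ).Finite ∧ (VT Γ k τ).ncard ≤ mm Γ k := by
  classical
  have h0 := VT_card (k := k) hτ
  refine ⟨h0.1, ?_⟩
  have hτ' : ∀ j ∈ Γ.image refl, j.1 ≠ -τ := by
    intro j hj
    rw [Finset.mem_image] at hj
    obtain ⟨i, hi, rfl⟩ := hj
    intro h
    exact hτ i hi (neg_injective h)
  have h1 := VT_card (k := Γ.card - 1 - k) hτ'
  have h2 : (VT Γ k τ).ncard ≤ (VT (Γ.image refl) (Γ.card - 1 - k) (-τ)).ncard := by
    apply Set.ncard_le_ncard_of_injOn (fun p => (p.1, -p.2)) _ _ h1.1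
    · rintro p ⟨l, m, h, h3⟩
      refine ⟨refl l, refl m, V_refl h, ?_⟩
      have e1 : (refl l).1 = -l.1 := rfl
      have e2 : (refl m).1 = -m.1 := rfl
      rw [e1, e2]
      rcases h3 with h3 | h3
      · right; exact ⟨by linarith [h3.2], by linarith [h3.1]⟩
      · left; exact ⟨by linarith [h3.2], by linarith [h3.1]⟩
    · rintro p - q - h
      rw [Prod.mk.injEq] at h
      exact Prod.ext h.1 (neg_injective h.2)
  unfold mm
  rcases Nat.le_total k (Γ.card - 1 - k) with h | h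
  · rw [min_eq_left h]; exact h0.2
  · rw [min_eq_right h]; exact h2.trans h1.2

/-- the projective map which exchanges the slope and the height at `x₀` -/
def sw (x₀ : ℝ) (l : ℝ × ℝ) : ℝ × ℝ := (height l x₀, l.1)

lemma sw_inj (x₀ : ℝ) : Function.Injective (sw x₀) := by
  intro l m h
  unfold sw height at h
  rw [Prod.mk.injEq] at h
  refine Prod.ext h.2 ?_
  have := h.1
  rw [h.2] at this
  linarith

lemma height_sw (x₀ : ℝ) (l : ℝ × ℝ) {x : ℝ} (hx : x ≠ x₀) :
    height (sw x₀ l) (1 / (x - x₀)) = height l x / (x - x₀) := by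
  have : x - x₀ ≠ 0 := sub_ne_zero.mpr hx
  unfold sw height
  field_simp
  ring

lemma V_sw {Γ : Finset (ℝ × ℝ)} {k : ℕ} {p l m : ℝ × ℝ} {x₀ : ℝ} (h : V Γ k p l m)
    (hp : x₀ < p.1) :
    V (Γ.image (sw x₀)) k (1 / (p.1 - x₀), p.2 / (p.1 - x₀)) (sw x₀ m) (sw x₀ l) := by
  classical
  obtain ⟨hl, hm, hlm, hlp, hmp, hL, hR⟩ := h
  have hx : 0 < p.1 - x₀ := by linarith
  have hlt : ∀ j : ℝ × ℝ, height (sw x₀ j) (1 / (p.1 - x₀)) < p.2 / (p.1 - x₀) ↔
      height j p.1 < p.2 := by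
    intro j
    rw [height_sw x₀ j hp.ne', div_lt_div_iff_of_pos_right hx]
  have heq : ∀ j : ℝ × ℝ, height (sw x₀ j) (1 / (p.1 - x₀)) = p.2 / (p.1 - x₀) ↔
      height j p.1 = p.2 := by
    intro j
    rw [height_sw x₀ j hp.ne', div_left_inj' hx.ne']
  -- for lines through `p` the order of the heights at `x₀` is opposite to that of the slopes
  have hord : ∀ i j : ℝ × ℝ, height i p.1 = p.2 → height j p.1 = p.2 →
      ((sw x₀ i).1 < (sw x₀ j).1 ↔ j.1 < i.1) := by
    intro i j h1 h2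
    have e1 : (sw x₀ i).1 = p.2 - i.1 * (p.1 - x₀) := by
      unfold sw height at *; linarith
    have e2 : (sw x₀ j).1 = p.2 - j.1 * (p.1 - x₀) := by
      unfold sw height at *; linarith
    rw [e1, e2]
    constructor
    · intro h3
      by_contra h4
      push Not at h4
      nlinarith
    · intro h3
      nlinarith
  refine ⟨Finset.mem_image_of_mem _ hm, Finset.mem_image_of_mem _ hl,
    fun h => hlm (sw_inj x₀ h).symm, (heq m).mpr hmp, (heq l).mpr hlp, ?_, ?_⟩
  · have e : LS (Γ.image (sw x₀)) (1 / (p.1 - x₀), p.2 / (p.1 - x₀)) (sw x₀ m).1 =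
        (RS Γ p m.1).image (sw x₀) := by
      ext j'
      unfold LS RS
      simp only [Finset.mem_filter, Finset.mem_image]
      constructor
      · rintro ⟨⟨j, hj, rfl⟩, h1⟩
        rw [hlt, heq] at h1
        refine ⟨j, ⟨hj, ?_⟩, rfl⟩
        rcases h1 with h1 | ⟨h1, h2⟩
        · exact Or.inl h1
        · exact Or.inr ⟨h1, (hord m j hmp h1).mp h2⟩
      · rintro ⟨j, ⟨hj, h1⟩, rfl⟩
        refine ⟨⟨j, hj, rfl⟩, ?_⟩
        rw [hlt, heq]
        rcases h1 with h1 | ⟨h1, h2⟩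
        · exact Or.inl h1
        · exact Or.inr ⟨h1, (hord m j hmp h1).mpr h2⟩
    rw [e, Finset.card_image_of_injective _ (sw_inj x₀), hR]
  · have e : RS (Γ.image (sw x₀)) (1 / (p.1 - x₀), p.2 / (p.1 - x₀)) (sw x₀ l).1 =
        (LS Γ p l.1).image (sw x₀) := by
      ext j'
      unfold LS RS
      simp only [Finset.mem_filter, Finset.mem_image]
      constructor
      · rintro ⟨⟨j, hj, rfl⟩, h1⟩
        rw [hlt, heq] at h1
        refine ⟨j, ⟨hj, ?_⟩, rfl⟩
        rcases h1 with h1 | ⟨h1, h2⟩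
        · exact Or.inl h1
        · exact Or.inr ⟨h1, (hord j l h1 hlp).mp h2⟩
      · rintro ⟨j, ⟨hj, h1⟩, rfl⟩
        refine ⟨⟨j, hj, rfl⟩, ?_⟩
        rw [hlt, heq]
        rcases h1 with h1 | ⟨h1, h2⟩
        · exact Or.inl h1
        · exact Or.inr ⟨h1, (hord j l h1 hlp).mpr h2⟩
    rw [e, Finset.card_image_of_injective _ (sw_inj x₀), hL]

/-- reflection in the vertical axis -/
def vr (l : ℝ × ℝ) : ℝ × ℝ := (-l.1, l.2)

lemma vr_inj : Function.Injective vr := by
  intro l m h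
  unfold vr at h
  rw [Prod.mk.injEq] at h
  exact Prod.ext (neg_injective h.1) h.2

lemma height_vr (l : ℝ × ℝ) (x : ℝ) : height (vr l) (-x) = height l x := by
  unfold height vr; ring

lemma V_vr {Γ : Finset (ℝ × ℝ)} {k : ℕ} {p l m : ℝ × ℝ} (h : V Γ k p l m) :
    V (Γ.image vr) k (-p.1, p.2) (vr m) (vr l) := by
  classical
  obtain ⟨hl, hm, hlm, hlp, hmp, hL, hR⟩ := h
  refine ⟨Finset.mem_image_of_mem _ hm, Finset.mem_image_of_mem _ hl,
    fun h => hlm (vr_inj h).symm, ?_, ?_, ?_, ?_⟩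
  · show height (vr m) (-p.1) = p.2
    rw [height_vr, hmp]
  · show height (vr l) (-p.1) = p.2
    rw [height_vr, hlp]
  · have e : LS (Γ.image vr) (-p.1, p.2) (vr m).1 = (RS Γ p m.1).image vr := by
      ext j'
      unfold LS RS
      simp only [Finset.mem_filter, Finset.mem_image]
      have hs : ∀ j : ℝ × ℝ, (vr m).1 < (vr j).1 ↔ j.1 < m.1 := by
        intro j; unfold vr; exact neg_lt_neg_iff
      constructor
      · rintro ⟨⟨j, hj, rfl⟩, h1⟩
        rw [height_vr, hs] at h1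
        exact ⟨j, ⟨hj, h1⟩, rfl⟩
      · rintro ⟨j, ⟨hj, h1⟩, rfl⟩
        refine ⟨⟨j, hj, rfl⟩, ?_⟩
        rw [height_vr, hs]
        exact h1
    rw [e, Finset.card_image_of_injective _ vr_inj, hR]
  · have e : RS (Γ.image vr) (-p.1, p.2) (vr l).1 = (LS Γ p l.1).image vr := by
      ext j'
      unfold LS RS
      simp only [Finset.mem_filter, Finset.mem_image]
      have hs : ∀ j : ℝ × ℝ, (vr j).1 < (vr l).1 ↔ l.1 < j.1 := by
        intro j; unfold vr; exact neg_lt_neg_iff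
      constructor
      · rintro ⟨⟨j, hj, rfl⟩, h1⟩
        rw [height_vr, hs] at h1
        exact ⟨j, ⟨hj, h1⟩, rfl⟩
      · rintro ⟨j, ⟨hj, h1⟩, rfl⟩
        refine ⟨⟨j, hj, rfl⟩, ?_⟩
        rw [height_vr, hs]
        exact h1
    rw [e, Finset.card_image_of_injective _ vr_inj, hL]

/-- the vertices at which the level passes between lines whose values under `f` are separated
by `τ` -/
def HT (Γ : Finset (ℝ × ℝ)) (k : ℕ) (f : ℝ × ℝ → ℝ) (τ : ℝ) : Set (ℝ × ℝ) :=
  {p | ∃ l m, V Γ k p l m ∧ ((f m < τ ∧ τ < f l) ∨ (f l < τ ∧ τ < f m))}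

/-- the vertices of `HT` to the right of `x₀` -/
lemma right_card {Γ : Finset (ℝ × ℝ)} {k : ℕ} {x₀ τ : ℝ} (hτ : ∀ j ∈ Γ, height j x₀ ≠ τ) :
    (HT Γ k (fun l => height l x₀) τ ∩ {p | x₀ < p.1}).Finite ∧
      (HT Γ k (fun l => height l x₀) τ ∩ {p | x₀ < p.1}).ncard ≤ mm Γ k := by
  classical
  have hτ' : ∀ j ∈ Γ.image (sw x₀), j.1 ≠ τ := by
    intro j hj
    rw [Finset.mem_image] at hj
    obtain ⟨i, hi, rfl⟩ := hj
    exact hτ i hi
  have h1 := VT_min (k := k) hτ'
  have hc : mm (Γ.image (sw x₀)) k = mm Γ k := by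
    unfold mm
    rw [Finset.card_image_of_injective _ (sw_inj x₀)]
  rw [hc] at h1
  set F : ℝ × ℝ → ℝ × ℝ := fun p => (1 / (p.1 - x₀), p.2 / (p.1 - x₀)) with hF
  have hmaps : ∀ p ∈ HT Γ k (fun l => height l x₀) τ ∩ {p | x₀ < p.1},
      F p ∈ VT (Γ.image (sw x₀)) k τ := by
    rintro p ⟨⟨l, m, h, h3⟩, hp⟩
    refine ⟨sw x₀ m, sw x₀ l, V_sw h hp, ?_⟩
    rcases h3 with h3 | h3
    · right; exact h3
    · left; exact h3
  have hinj : Set.InjOn F (HT Γ k (fun l => height l x₀) τ ∩ {p | x₀ < p.1}) := by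
    rintro p ⟨-, hp⟩ q ⟨-, hq⟩ h
    have hp' : 0 < p.1 - x₀ := by
      have : x₀ < p.1 := hp
      linarith
    have hq' : 0 < q.1 - x₀ := by
      have : x₀ < q.1 := hq
      linarith
    simp only [hF, Prod.mk.injEq] at h
    have h4 : p.1 - x₀ = q.1 - x₀ := by
      have := h.1
      rw [div_eq_div_iff hp'.ne' hq'.ne'] at this
      linarith
    have h5 := h.2
    rw [h4, div_left_inj' hq'.ne'] at h5
    exact Prod.ext (by linarith) h5
  exact ⟨Set.Finite.of_injOn hmaps hinj h1.1,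
    (Set.ncard_le_ncard_of_injOn F hmaps hinj h1.1).trans h1.2⟩

/-- the vertices at which the heights at `x₀` are separated by `τ` -/
lemma height_card {Γ : Finset (ℝ × ℝ)} {k : ℕ} {x₀ τ : ℝ} (hτ : ∀ j ∈ Γ, height j x₀ ≠ τ) :
    (HT Γ k (fun l => height l x₀) τ).Finite ∧
      (HT Γ k (fun l => height l x₀) τ).ncard ≤ 2 * mm Γ k := by
  classical
  have h1 := right_card (k := k) hτ
  have hτ' : ∀ j ∈ Γ.image vr, height j (-x₀) ≠ τ := by
    intro j hj
    rw [Finset.mem_image] at hj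
    obtain ⟨i, hi, rfl⟩ := hj
    rw [height_vr]
    exact hτ i hi
  have h2 := right_card (k := k) hτ'
  have hc : mm (Γ.image vr) k = mm Γ k := by
    unfold mm
    rw [Finset.card_image_of_injective _ vr_inj]
  rw [hc] at h2
  set F : ℝ × ℝ → ℝ × ℝ := fun p => (-p.1, p.2) with hF
  have hmaps : ∀ p ∈ HT Γ k (fun l => height l x₀) τ ∩ {p | p.1 < x₀},
      F p ∈ HT (Γ.image vr) k (fun l => height l (-x₀)) τ ∩ {p | -x₀ < p.1} := by
    rintro p ⟨⟨l, m, h, h3⟩, hp⟩
    refine ⟨⟨vr m, vr l, V_vr h, ?_⟩, ?_⟩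
    · simp only [height_vr]
      rcases h3 with h3 | h3
      · right; exact h3
      · left; exact h3
    · have : p.1 < x₀ := hp
      simp only [hF, Set.mem_setOf_eq]
      linarith
  have hinj : Set.InjOn F (HT Γ k (fun l => height l x₀) τ ∩ {p | p.1 < x₀}) := by
    rintro p - q - h
    simp only [hF, Prod.mk.injEq] at h
    exact Prod.ext (neg_injective h.1) h.2
  have h3 : (HT Γ k (fun l => height l x₀) τ ∩ {p | p.1 < x₀}).Finite :=
    Set.Finite.of_injOn hmaps hinj h2.1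
  have h4 : (HT Γ k (fun l => height l x₀) τ ∩ {p | p.1 < x₀}).ncard ≤ mm Γ k :=
    (Set.ncard_le_ncard_of_injOn F hmaps hinj h2.1).trans h2.2
  have hun : HT Γ k (fun l => height l x₀) τ =
      (HT Γ k (fun l => height l x₀) τ ∩ {p | x₀ < p.1}) ∪
      (HT Γ k (fun l => height l x₀) τ ∩ {p | p.1 < x₀}) := by
    ext p
    constructor
    · intro hp
      rcases lt_trichotomy p.1 x₀ with h | h | h
      · exact Or.inr ⟨hp, h⟩
      · exfalso
        obtain ⟨l, m, h5, h6⟩ := hp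
        have e1 : height l x₀ = p.2 := by rw [← h]; exact h5.2.2.2.1
        have e2 : height m x₀ = p.2 := by rw [← h]; exact h5.2.2.2.2.1
        simp only [e1, e2] at h6
        rcases h6 with h6 | h6
        · linarith [h6.1, h6.2]
        · linarith [h6.1, h6.2]
      · exact Or.inl ⟨hp, h⟩
    · rintro (h | h)
      · exact h.1
      · exact h.1
  rw [hun]
  exact ⟨h1.1.union h3, (Set.ncard_union_le _ _).trans (by omega)⟩

/-- **Lovász's lemma for levels.** Let `f l = c₁ l.1 + c₂ l.2` be a nonzero functional of the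
lines. The level passes at most `2 (2 min (k, n - 1 - k) + 1)` times between lines on the two
sides of a threshold `τ`. -/
theorem fun_card {Γ : Finset (ℝ × ℝ)} {k : ℕ} {c₁ c₂ τ : ℝ} (hc : c₁ ≠ 0 ∨ c₂ ≠ 0)
    (hτ : ∀ j ∈ Γ, c₁ * j.1 + c₂ * j.2 ≠ τ) :
    (HT Γ k (fun l => c₁ * l.1 + c₂ * l.2) τ).Finite ∧
      (HT Γ k (fun l => c₁ * l.1 + c₂ * l.2) τ).ncard ≤ 2 * mm Γ k := by
  classical
  by_cases h2 : c₂ = 0
  · have h1 : c₁ ≠ 0 := by
      rcases hc with h | h
      · exact h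
      · exact absurd h2 h
    have hτ' : ∀ j ∈ Γ, j.1 ≠ τ / c₁ := by
      intro j hj h
      apply hτ j hj
      rw [h, h2]
      field_simp
      ring
    have h3 := VT_min (k := k) hτ'
    have hsub : HT Γ k (fun l => c₁ * l.1 + c₂ * l.2) τ ⊆ VT Γ k (τ / c₁) := by
      rintro p ⟨l, m, h, h4⟩
      refine ⟨l, m, h, ?_⟩
      simp only [h2, zero_mul, add_zero] at h4
      rcases lt_or_gt_of_ne h1 with h5 | h5
      · rw [lt_div_iff_of_neg h5, div_lt_iff_of_neg h5, lt_div_iff_of_neg h5,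
          div_lt_iff_of_neg h5]
        rcases h4 with h4 | h4
        · right; exact ⟨by linarith [h4.2], by linarith [h4.1]⟩
        · left; exact ⟨by linarith [h4.2], by linarith [h4.1]⟩
      · rw [lt_div_iff₀ h5, div_lt_iff₀ h5, lt_div_iff₀ h5, div_lt_iff₀ h5]
        rcases h4 with h4 | h4
        · left; exact ⟨by linarith [h4.1], by linarith [h4.2]⟩
        · right; exact ⟨by linarith [h4.1], by linarith [h4.2]⟩
    exact ⟨h3.1.subset hsub, (Set.ncard_le_ncard hsub h3.1).trans (by omega)⟩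
  · have hval : ∀ l : ℝ × ℝ, c₁ * l.1 + c₂ * l.2 = c₂ * height l (c₁ / c₂) := by
      intro l
      unfold height
      field_simp
    have hτ' : ∀ j ∈ Γ, height j (c₁ / c₂) ≠ τ / c₂ := by
      intro j hj h
      apply hτ j hj
      rw [hval, h]
      field_simp
    have h3 := height_card (k := k) hτ'
    have hsub : HT Γ k (fun l => c₁ * l.1 + c₂ * l.2) τ ⊆
        HT Γ k (fun l => height l (c₁ / c₂)) (τ / c₂) := by
      rintro p ⟨l, m, h, h4⟩
      refine ⟨l, m, h, ?_⟩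
      simp only [hval] at h4
      rcases lt_or_gt_of_ne h2 with h5 | h5
      · simp only [lt_div_iff_of_neg h5, div_lt_iff_of_neg h5]
        rcases h4 with h4 | h4
        · right; exact ⟨by linarith [h4.2], by linarith [h4.1]⟩
        · left; exact ⟨by linarith [h4.2], by linarith [h4.1]⟩
      · simp only [lt_div_iff₀ h5, div_lt_iff₀ h5]
        rcases h4 with h4 | h4
        · left; exact ⟨by linarith [h4.1], by linarith [h4.2]⟩
        · right; exact ⟨by linarith [h4.1], by linarith [h4.2]⟩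
    exact ⟨h3.1.subset hsub, (Set.ncard_le_ncard hsub h3.1).trans h3.2⟩

end Pool.Agent.R800.GL
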